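import Pool.Agent.Lib.MP_ce5ee5_co.BraidSub

open Pool.Agent.Lib.MP_ce5ee5_co

theorem Pool.Agent.Results.MP_ce5ee5_co.BraidStructure.result (k : ℕ) (V : Type) [Finite V]
    (F : SimpleGraph V) :
    InF k F ↔ ∃ x y, x ≠ y ∧ IsBraid F (k + 1) x y ∧
      ∀ A : Set V, A ≠ Set.univ → ∀ u w : A, u ≠ w → s(u.1, w.1) ≠ s(x, y) →
        ¬ IsBraid (F.induce A) (k + 1) u w := by
  classical
  have := Fintype.ofFinite V
  constructor
  · rintro ⟨h1, h2⟩
    simp only [InG, not_forall] at h1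
    obtain ⟨x, y, hxy, hn, h⟩ := h1
    refine ⟨x, y, hxy, braid_of_critical hxy hn h fun v hu hw => ?_,
      fun A hA u w huw _ hb => hb.not_sepLE (h2 A hA u w huw hb.not_adj)⟩
    have hx : x ∈ ({v}ᶜ : Set V) := hu.symm
    have hy : y ∈ ({v}ᶜ : Set V) := hw.symm
    obtain ⟨S, hS, hu', hw', hp⟩ := h2 {v}ᶜ (by simp) ⟨x, hx⟩ ⟨y, hy⟩
      (by simpa using hxy) (by simpa using hn)
    refine ⟨insert v (S.map (Function.Embedding.subtype _)),
      (Finset.card_insert_le _ _).trans (by simpa using hS), by simp, ?_, ?_, fun p => ?_⟩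
    · simp [hu.symm, hu']
    · simp [hw.symm, hw']
    by_cases hv : v ∈ p.support
    · exact ⟨v, hv, by simp⟩
    have hp' : ∀ a ∈ p.support, a ∈ ({v}ᶜ : Set V) := fun a ha (h : a = v) => hv (h ▸ ha)
    obtain ⟨a, ha, haS⟩ := hp (p.induce {v}ᶜ hp')
    refine ⟨a, ?_, Finset.mem_insert_of_mem (Finset.mem_map_of_mem _ haS)⟩
    rw [SimpleGraph.Walk.support_induce] at ha
    simpa using ha
  · rintro ⟨x, y, hxy, hb, h⟩
    refine ⟨fun k => hb.not_sepLE (k x y hxy hb.not_adj), ?_⟩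
    rintro A hA ⟨u, hu⟩ ⟨w, hw⟩ huw hn
    have huw' : u ≠ w := fun e => huw (Subtype.ext e)
    by_cases e : s(u, w) = s(x, y)
    · rcases Sym2.eq_iff.1 e with ⟨rfl, rfl⟩ | ⟨rfl, rfl⟩
      · exact (hb.sep_sub hxy hA hu hw).1
      · exact (hb.sep_sub hxy hA hw hu).2
    · exact sepLE_of_no_braid hu hw huw' hn fun B BA hu' hw' =>
        h B (fun e => hA (Set.univ_subset_iff.1 (e ▸ BA))) ⟨u, hu'⟩ ⟨w, hw'⟩
          (fun e => huw' (congrArg Subtype.val e)) e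

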