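import Pool.Agent.Lib.MP_ce5ee5_co.FpFin

open Pool.Agent.Lib.MP_ce5ee5_co

theorem Pool.Agent.Results.MP_ce5ee5_co.FiniteBasis.result (k : ℕ) (V : Type) [Finite V]
    (F : SimpleGraph V) :
    InF k F ↔ ∃ x y T s, x ≠ y ∧ Braid F (k + 1) x y T s ∧
      ∀ Z : Set V, x ∈ Z → y ∈ Z → (∀ i, s 0 i ∈ Z ∧ s T i ∈ Z) →
        Z.ncard ≤ 4 ^ (k + 6) * (k + 2) ^ 3 → InF k (Trace F T s Z) :=
  inF_traces k F
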