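import Pool.Agent.Lib.MP_ce5ee5_co.K3Main

open Pool.Agent.Lib.MP_ce5ee5_co

theorem Pool.Agent.Results.MP_ce5ee5_co.ThreeExplicit.result (V : Type) [Finite V]
    (F : SimpleGraph V) :
    InF 3 F ↔ ∃ x y n p, IsBr (r := 4) F x y n p ∧ Cond F x y n p :=
  inF_three F
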